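import Mathlib

/-!
# Common edge-cut partitions of several trees at large `k`
-/

set_option autoImplicit false

open Finset

namespace Pool.Agent.Results.MP_8ae77a_co.CommonPartitionsLargeK

/-- A semilabeled binary tree of size `n`: a finite tree in which every vertex has degree one or
three, and whose vertices of degree one (the leaves) are labelled bijectively by `Fin n`. -/
structure PhyloTree (n : ℕ) where
  /-- the vertices -/
  V : Type
  finite : Finite V
  /-- the tree -/
  G : SimpleGraph V
  isTree : G.IsTree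
  degree : ∀ v, (G.neighborSet v).ncard = 1 ∨ (G.neighborSet v).ncard = 3
  /-- the leaf with a given label -/
  leaf : Fin n → V
  leaf_injective : Function.Injective leaf
  leaf_range : Set.range leaf = {v | (G.neighborSet v).ncard = 1}

/-- The set of the partitions (as equivalence relations) of the set of labels which arise from `T`
by deleting a set of edges: two labels are in the same class if and only if the leaves with these
labels lie in the same component of the remaining graph `H`. -/
def PhyloTree.partitions {n : ℕ} (T : PhyloTree n) : Set (Setoid (Fin n)) :=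
  {r | ∃ H : SimpleGraph T.V, H ≤ T.G ∧ ∀ i j, r i j ↔ H.Reachable (T.leaf i) (T.leaf j)}

/-- The number of partitions into exactly `k` classes common to all the trees `T i`. -/
noncomputable def common {n t : ℕ} (T : Fin t → PhyloTree n) (k : ℕ) : ℕ :=
  {r : Setoid (Fin n) | (∀ i, r ∈ (T i).partitions) ∧ Nat.card (Quotient r) = k}.ncard

/-- Some edge of `T` separates the leaves with labels in `A` from those with labels in `B`. -/
def Sep {n : ℕ} (T : PhyloTree n) (A B : Finset (Fin n)) : Prop :=
  ∃ v w, T.G.Adj v w ∧ (∀ a ∈ A, T.G.dist v (T.leaf a) < T.G.dist w (T.leaf a)) ∧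
    ∀ b ∈ B, T.G.dist w (T.leaf b) < T.G.dist v (T.leaf b)

theorem Sep.mono {n : ℕ} {T : PhyloTree n} {A B A' B' : Finset (Fin n)} (h : Sep T A B)
    (hA : A' ⊆ A) (hB : B' ⊆ B) : Sep T A' B' := by
  obtain ⟨v, w, h1, h2, h3⟩ := h
  exact ⟨v, w, h1, fun a ha => h2 a (hA ha), fun b hb => h3 b (hB hb)⟩

theorem exists_closer {V : Type} (G : SimpleGraph V) (hG : G.Connected) (v x : V) (h : x ≠ v) :
    ∃ x', G.Adj x x' ∧ G.dist v x' + 1 = G.dist v x := by
  obtain ⟨p, hp⟩ := (hG.preconnected x v).exists_walk_length_eq_dist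
  cases p with
  | nil => exact absurd rfl h
  | cons hadj q =>
    rename_i x'
    refine ⟨x', hadj, ?_⟩
    rw [SimpleGraph.Walk.length_cons] at hp
    have h1 : G.dist x' v ≤ q.length := SimpleGraph.dist_le q
    have h2 : G.dist v x ≤ G.dist v x' + G.dist x' x := hG.dist_triangle
    have h3 : G.dist x' x = 1 := SimpleGraph.dist_eq_one_iff_adj.2 hadj.symm
    rw [SimpleGraph.dist_comm] at h1 hp
    omega

/-- Half of the labels of `A` can be separated from a third of the labels of `B`. -/
theorem step {n : ℕ} (T : PhyloTree n) (A B : Finset (Fin n)) :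
    ∃ A' ⊆ A, ∃ B' ⊆ B, A.card ≤ 2 * A'.card ∧ B.card ≤ 3 * B'.card + 1 ∧ Sep T A' B' := by
  classical
  have := T.finite
  have : Nonempty T.V := T.isTree.connected.nonempty
  obtain ⟨v, hv⟩ := Finite.exists_min (fun v => ∑ a ∈ A, T.G.dist (T.leaf a) v)
  have hnbr : ∀ w, T.G.Adj v w → A.card ≤ 2 * (A.filter fun a =>
      T.G.dist v (T.leaf a) < T.G.dist w (T.leaf a)).card := by
    intro w hvw
    have h1 := hv w
    have h2 : ∀ a, (T.G.dist (T.leaf a) w : ℤ) = T.G.dist (T.leaf a) v +
        (if T.G.dist v (T.leaf a) < T.G.dist w (T.leaf a) then 1 else -1) := by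
      intro a
      have h3 := T.isTree.dist_eq_dist_add_one_of_adj (T.leaf a) hvw
      rw [SimpleGraph.dist_comm (u := v), SimpleGraph.dist_comm (u := w)]
      rcases h3 with h3 | h3
      · rw [if_neg (by omega)]
        omega
      · rw [if_pos (by omega)]
        omega
    have h3 : ((∑ a ∈ A, T.G.dist (T.leaf a) w : ℕ) : ℤ) =
        ((∑ a ∈ A, T.G.dist (T.leaf a) v : ℕ) : ℤ) +
        (2 * ((A.filter fun a => T.G.dist v (T.leaf a) < T.G.dist w (T.leaf a)).card : ℤ) -
          A.card) := by
      push_cast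
      rw [sum_congr rfl fun a _ => h2 a, sum_add_distrib, add_right_inj, sum_ite, sum_const,
        sum_const]
      have h4 := card_filter_add_card_filter_not (s := A)
        (fun a => T.G.dist v (T.leaf a) < T.G.dist w (T.leaf a))
      simp only [smul_eq_mul, nsmul_eq_mul]
      push_cast [← h4]
      ring
    have h5 : ((∑ a ∈ A, T.G.dist (T.leaf a) v : ℕ) : ℤ) ≤
        ((∑ a ∈ A, T.G.dist (T.leaf a) w : ℕ) : ℤ) := by exact_mod_cast h1
    rw [h3] at h5
    omega
  -- the neighbours of `v`
  have hfin : (T.G.neighborSet v).Finite := Set.toFinite _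
  set N : Finset T.V := hfin.toFinset with hN
  have hNcard : (T.G.neighborSet v).ncard = N.card := Set.ncard_eq_toFinset_card _ hfin
  have hNc : N.card ≤ 3 := by
    have h1 := T.degree v
    omega
  have hmem : ∀ w, w ∈ N ↔ T.G.Adj v w := by
    intro w
    rw [hN, Set.Finite.mem_toFinset]
    exact Iff.rfl
  have hNne : N.Nonempty := by
    rw [← card_pos]
    have h1 := T.degree v
    omega
  have hcover : (B.filter fun b => T.leaf b ≠ v) ⊆
      N.biUnion fun w => B.filter fun b => T.G.dist w (T.leaf b) < T.G.dist v (T.leaf b) := by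
    intro b hb
    rw [mem_filter] at hb
    obtain ⟨w, hw1, hw2⟩ := exists_closer T.G T.isTree.connected (T.leaf b) v (Ne.symm hb.2)
    rw [mem_biUnion]
    refine ⟨w, (hmem w).2 hw1, mem_filter.2 ⟨hb.1, ?_⟩⟩
    rw [SimpleGraph.dist_comm (u := w), SimpleGraph.dist_comm (u := v)]
    omega
  have hB1 : B.card ≤ (B.filter fun b => T.leaf b ≠ v).card + 1 := by
    have h1 := card_filter_add_card_filter_not (s := B) (fun b => T.leaf b ≠ v)
    have h2 : (B.filter fun b => ¬ T.leaf b ≠ v).card ≤ 1 := by
      rw [card_le_one]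
      intro a ha b hb
      rw [mem_filter] at ha hb
      push Not at ha hb
      exact T.leaf_injective (ha.2.trans hb.2.symm)
    omega
  obtain ⟨w, hw, hmax⟩ := exists_max_image N (fun w => (B.filter fun b =>
    T.G.dist w (T.leaf b) < T.G.dist v (T.leaf b)).card) hNne
  have hB2 : (B.filter fun b => T.leaf b ≠ v).card ≤ 3 * (B.filter fun b =>
      T.G.dist w (T.leaf b) < T.G.dist v (T.leaf b)).card := by
    refine le_trans (card_le_card hcover) (le_trans card_biUnion_le ?_)
    refine le_trans (sum_le_sum hmax) ?_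
    rw [sum_const, smul_eq_mul]
    exact Nat.mul_le_mul_right _ hNc
  refine ⟨A.filter fun a => T.G.dist v (T.leaf a) < T.G.dist w (T.leaf a), filter_subset _ _,
    B.filter fun b => T.G.dist w (T.leaf b) < T.G.dist v (T.leaf b), filter_subset _ _,
    hnbr w ((hmem w).1 hw), by omega, v, w, (hmem w).1 hw, ?_, ?_⟩
  · intro a ha
    exact (mem_filter.1 ha).2
  · intro b hb
    exact (mem_filter.1 hb).2

theorem iter {n : ℕ} : ∀ (t : ℕ) (T : Fin t → PhyloTree n) (A B : Finset (Fin n)),
    ∃ A' ⊆ A, ∃ B' ⊆ B, A.card ≤ 2 ^ t * A'.card ∧ 2 * B.card + 1 ≤ 3 ^ t * (2 * B'.card + 1) ∧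
      ∀ i, Sep (T i) A' B' := by
  intro t
  induction t with
  | zero =>
    intro T A B
    exact ⟨A, Subset.refl _, B, Subset.refl _, by simp, by simp, fun i => i.elim0⟩
  | succ t ih =>
    intro T A B
    obtain ⟨A', hA, B', hB, h1, h2, h3⟩ := ih (fun i => T i.castSucc) A B
    obtain ⟨A'', hA', B'', hB', h4, h5, h6⟩ := step (T (Fin.last t)) A' B'
    refine ⟨A'', hA'.trans hA, B'', hB'.trans hB, ?_, ?_, ?_⟩
    · calc A.card ≤ 2 ^ t * A'.card := h1
        _ ≤ 2 ^ t * (2 * A''.card) := Nat.mul_le_mul_left _ h4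
        _ = 2 ^ (t + 1) * A''.card := by ring
    · calc 2 * B.card + 1 ≤ 3 ^ t * (2 * B'.card + 1) := h2
        _ ≤ 3 ^ t * (2 * (3 * B''.card + 1) + 1) := Nat.mul_le_mul_left _ (by omega)
        _ = 3 ^ (t + 1) * (2 * B''.card + 1) := by ring
    · intro i
      refine Fin.lastCases h6 (fun j => ?_) i
      exact (h3 j).mono hA' hB'

/-- Class of a label in the partition with classes `A`, `B` and singletons. -/
def rep {n : ℕ} (A B : Finset (Fin n)) (i : Fin n) : Fin n ⊕ Bool :=
  if i ∈ A then Sum.inr true else if i ∈ B then Sum.inr false else Sum.inl i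

theorem rep_eq_iff {n : ℕ} (A B : Finset (Fin n)) (hAB : Disjoint A B) (i j : Fin n) :
    rep A B i = rep A B j ↔ i = j ∨ (i ∈ A ∧ j ∈ A) ∨ (i ∈ B ∧ j ∈ B) := by
  have hd : ∀ x, x ∈ A → x ∈ B → False := fun x hx hx' => (disjoint_left.1 hAB) hx hx'
  unfold rep
  by_cases h1 : i ∈ A <;> by_cases h2 : j ∈ A <;> by_cases h3 : i ∈ B <;> by_cases h4 : j ∈ B <;>
    simp [h1, h2, h3, h4]
  all_goals first
    | exact hd _ h1 h3
    | exact hd _ h2 h4
    | (intro h; subst h; contradiction)

theorem reach {n : ℕ} (T : PhyloTree n) (v w : T.V) (hvw : T.G.Adj v w) (Q : T.V → Prop)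
    (H : SimpleGraph T.V)
    (hH : ∀ x y, T.G.Adj x y → Q x → Q y → T.G.dist v x < T.G.dist w x →
      T.G.dist v y < T.G.dist w y → H.Adj x y)
    (hQ : ∀ x, (T.G.neighborSet x).ncard ≠ 1 → Q x) :
    ∀ (m : ℕ) (x : T.V), T.G.dist v x = m → Q x → T.G.dist v x < T.G.dist w x →
      H.Reachable x v := by
  have hc := T.isTree.connected
  intro m
  induction m with
  | zero =>
    intro x hx _ _
    have : v = x := (hc.dist_eq_zero_iff).1 hx
    rw [this]
  | succ m ih =>
    intro x hx hQx hPx
    have hxv : x ≠ v := by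
      rintro rfl
      rw [SimpleGraph.dist_self] at hx
      omega
    obtain ⟨x', hxx', hx'⟩ := exists_closer T.G hc v x hxv
    have htri : T.G.dist w x ≤ T.G.dist w x' + 1 := by
      have h1 : T.G.dist w x ≤ T.G.dist w x' + T.G.dist x' x := hc.dist_triangle
      rw [SimpleGraph.dist_eq_one_iff_adj.2 hxx'.symm] at h1
      exact h1
    have hPx' : T.G.dist v x' < T.G.dist w x' := by omega
    have hQx' : Q x' := by
      apply hQ
      intro hone
      obtain ⟨y, hy⟩ := Set.ncard_eq_one.1 hone
      have hxy : x = y := by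
        have : x ∈ T.G.neighborSet x' := hxx'.symm
        rw [hy] at this
        exact this
      by_cases hx'v : x' = v
      · have : w ∈ T.G.neighborSet x' := by rw [hx'v]; exact hvw
        rw [hy] at this
        have hwx : w = x := by
          rw [hxy]
          exact this
        rw [hwx, SimpleGraph.dist_self] at hPx
        omega
      · obtain ⟨x'', h1, h2⟩ := exists_closer T.G hc v x' hx'v
        have : x'' ∈ T.G.neighborSet x' := h1
        rw [hy] at this
        have hxx : x'' = x := by
          rw [hxy]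
          exact this
        rw [hxx] at h2
        omega
    have hadj := hH x x' hxx' hQx hQx' hPx hPx'
    exact hadj.reachable.trans (ih x' (by omega) hQx' hPx')

theorem partition_mem {n : ℕ} (T : PhyloTree n) (A B : Finset (Fin n)) (hAB : Disjoint A B)
    (hsep : Sep T A B) : Setoid.ker (rep A B) ∈ T.partitions := by
  obtain ⟨v, w, hvw, hA, hB⟩ := hsep
  have hc := T.isTree.connected
  let Q : T.V → Prop := fun x => ∀ i, x = T.leaf i → i ∈ A ∪ B
  let P : T.V → Prop := fun x => T.G.dist v x < T.G.dist w x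
  let H : SimpleGraph T.V :=
    { Adj := fun x y => T.G.Adj x y ∧ Q x ∧ Q y ∧ (P x ↔ P y)
      symm := ⟨fun x y h => ⟨h.1.symm, h.2.2.1, h.2.1, h.2.2.2.symm⟩⟩
      loopless := ⟨fun x h => h.1.ne rfl⟩ }
  have hside : ∀ x, P x ∨ T.G.dist w x < T.G.dist v x := by
    intro x
    have h3 := T.isTree.dist_eq_dist_add_one_of_adj x hvw
    show T.G.dist v x < T.G.dist w x ∨ _
    rw [SimpleGraph.dist_comm (u := v), SimpleGraph.dist_comm (u := w)]
    omega
  have hQdeg : ∀ x, (T.G.neighborSet x).ncard ≠ 1 → Q x := by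
    intro x hx i hxi
    exfalso
    have : x ∈ Set.range T.leaf := ⟨i, hxi.symm⟩
    rw [T.leaf_range] at this
    exact hx this
  have hQA : ∀ i, i ∈ A ∪ B → Q (T.leaf i) := by
    intro i hi j hj
    rw [← T.leaf_injective hj]
    exact hi
  refine ⟨H, fun x y h => h.1, ?_⟩
  intro i j
  show rep A B i = rep A B j ↔ _
  rw [rep_eq_iff A B hAB]
  constructor
  · rintro (rfl | ⟨hi, hj⟩ | ⟨hi, hj⟩)
    · exact SimpleGraph.Reachable.refl _
    · have h1 := reach T v w hvw Q H (fun x y hxy hx hy hx' hy' =>
        ⟨hxy, hx, hy, ⟨fun _ => hy', fun _ => hx'⟩⟩) hQdeg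
      exact (h1 _ _ rfl (hQA i (mem_union_left _ hi)) (hA i hi)).trans
        (h1 _ _ rfl (hQA j (mem_union_left _ hj)) (hA j hj)).symm
    · have h1 := reach T w v hvw.symm Q H (fun x y hxy hx hy hx' hy' =>
        ⟨hxy, hx, hy, ⟨fun h => absurd h (by show ¬ T.G.dist v x < T.G.dist w x; omega),
          fun h => absurd h (by show ¬ T.G.dist v y < T.G.dist w y; omega)⟩⟩) hQdeg
      exact (h1 _ _ rfl (hQA i (mem_union_right _ hi)) (hB i hi)).trans
        (h1 _ _ rfl (hQA j (mem_union_right _ hj)) (hB j hj)).symm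
  · rintro ⟨p⟩
    have key : ∀ (x y : T.V) (p : H.Walk x y), x = y ∨ (Q x ∧ Q y ∧ (P x ↔ P y)) := by
      intro x y p
      induction p with
      | nil => exact Or.inl rfl
      | cons h _ ih =>
        right
        rcases ih with ih | ih
        · subst ih
          exact h.2
        · exact ⟨h.2.1, ih.2.1, h.2.2.2.trans ih.2.2⟩
    rcases key _ _ p with h | ⟨h1, h2, h3⟩
    · exact Or.inl (T.leaf_injective h)
    · right
      have hi := mem_union.1 (h1 i rfl)
      have hj := mem_union.1 (h2 j rfl)
      rcases hi with hi | hi <;> rcases hj with hj | hj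
      · exact Or.inl ⟨hi, hj⟩
      · exfalso
        have h4 : T.G.dist v (T.leaf j) < T.G.dist w (T.leaf j) := h3.1 (hA i hi)
        have h5 := hB j hj
        omega
      · exfalso
        have h4 : T.G.dist v (T.leaf i) < T.G.dist w (T.leaf i) := h3.2 (hA j hj)
        have h5 := hB i hi
        omega
      · exact Or.inr ⟨hi, hj⟩

/-- A pendant edge separates everything from one label. -/
theorem sep_single {n : ℕ} (T : PhyloTree n) (s : Fin n) (A : Finset (Fin n)) (hs : s ∉ A) :
    Sep T A ∅ := by
  have hc := T.isTree.connected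
  have hdeg : (T.G.neighborSet (T.leaf s)).ncard = 1 := by
    have : T.leaf s ∈ Set.range T.leaf := ⟨s, rfl⟩
    rw [T.leaf_range] at this
    exact this
  obtain ⟨w, hw⟩ := Set.ncard_eq_one.1 hdeg
  have hadj : T.G.Adj (T.leaf s) w := by
    have : w ∈ T.G.neighborSet (T.leaf s) := by rw [hw]; exact Set.mem_singleton w
    exact this
  refine ⟨w, T.leaf s, hadj.symm, ?_, fun b hb => absurd hb (notMem_empty b)⟩
  intro a ha
  have hne : T.leaf s ≠ T.leaf a := by
    intro h
    rw [T.leaf_injective h] at hs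
    exact hs ha
  obtain ⟨x', h1, h2⟩ := exists_closer T.G hc (T.leaf a) (T.leaf s) hne
  have : x' ∈ T.G.neighborSet (T.leaf s) := h1
  rw [hw] at this
  have hx' : x' = w := this
  rw [hx'] at h2
  rw [SimpleGraph.dist_comm (u := w), SimpleGraph.dist_comm (u := T.leaf s)]
  omega

theorem card_quotient {n : ℕ} (A B : Finset (Fin n)) (hAB : Disjoint A B) (hA : A.Nonempty) :
    Nat.card (Quotient (Setoid.ker (rep A B))) + A.card + B.card =
      n + 1 + (if B.Nonempty then 1 else 0) := by
  classical
  rw [Nat.card_congr (Setoid.quotientKerEquivRange (rep A B))]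
  have hrange : Set.range (rep A B) = (((A ∪ B)ᶜ.image (Sum.inl : Fin n → Fin n ⊕ Bool) ∪
      (if B.Nonempty then {Sum.inr true, Sum.inr false} else {Sum.inr true}) : Finset _) :
        Set (Fin n ⊕ Bool)) := by
    ext z
    rw [Set.mem_range, mem_coe, mem_union, mem_image]
    constructor
    · rintro ⟨i, rfl⟩
      by_cases h1 : i ∈ A
      · right
        have : rep A B i = Sum.inr true := by simp [rep, h1]
        rw [this]
        by_cases hB : B.Nonempty <;> simp [hB]
      · by_cases h2 : i ∈ B
        · right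
          have : rep A B i = Sum.inr false := by simp [rep, h1, h2]
          rw [this, if_pos ⟨i, h2⟩]
          simp
        · left
          refine ⟨i, ?_, ?_⟩
          · simp [h1, h2]
          · simp [rep, h1, h2]
    · rintro (⟨i, hi, rfl⟩ | hz)
      · refine ⟨i, ?_⟩
        rw [mem_compl, mem_union, not_or] at hi
        simp [rep, hi.1, hi.2]
      · obtain ⟨a, ha⟩ := hA
        by_cases hB : B.Nonempty
        · rw [if_pos hB, mem_insert, mem_singleton] at hz
          rcases hz with rfl | rfl
          · exact ⟨a, by simp [rep, ha]⟩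
          · obtain ⟨b, hb⟩ := hB
            have : b ∉ A := fun h => (disjoint_left.1 hAB) h hb
            exact ⟨b, by simp [rep, hb, this]⟩
        · rw [if_neg hB, mem_singleton] at hz
          rw [hz]
          exact ⟨a, by simp [rep, ha]⟩
  rw [hrange, Nat.card_coe_set_eq, Set.ncard_coe_finset, card_union_of_disjoint]
  · rw [card_image_of_injective _ Sum.inl_injective, card_compl, Fintype.card_fin,
      card_union_of_disjoint hAB]
    have h1 : A.card + B.card ≤ n := by
      rw [← card_union_of_disjoint hAB]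
      exact le_trans (card_le_univ _) (by rw [Fintype.card_fin])
    by_cases hB : B.Nonempty
    · rw [if_pos hB, if_pos hB]
      have : ({Sum.inr true, Sum.inr false} : Finset (Fin n ⊕ Bool)).card = 2 := by
        rw [card_pair]
        intro h
        exact Bool.noConfusion (Sum.inr.inj h)
      omega
    · rw [if_neg hB, if_neg hB, card_singleton]
      omega
  · rw [disjoint_left]
    intro z hz hz'
    rw [mem_image] at hz
    obtain ⟨i, -, rfl⟩ := hz
    by_cases hB : B.Nonempty
    · rw [if_pos hB] at hz'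
      simp at hz'
    · rw [if_neg hB] at hz'
      simp at hz'

theorem main (t n k : ℕ) (hk : k + 2 ≤ n) (hn : 4 * 3 ^ t * (n - k) ≤ n) (hk1 : 1 ≤ k)
    (T : Fin t → PhyloTree n) : n.choose (k - 1) < common T k := by
  classical
  have h3 : 1 ≤ 3 ^ t := Nat.one_le_pow _ _ (by norm_num)
  have h2 : 2 ^ t ≤ 3 ^ t := Nat.pow_le_pow_left (by norm_num) t
  have hn8 : 8 * 3 ^ t ≤ n := by
    have : 4 * 3 ^ t * 2 ≤ 4 * 3 ^ t * (n - k) := Nat.mul_le_mul_left _ (by omega)
    omega
  have hk2 : 2 ≤ k := by
    have h4 : 4 * (n - k) ≤ 4 * 3 ^ t * (n - k) := by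
      apply Nat.mul_le_mul_right
      omega
    omega
  -- two separated sets
  obtain ⟨A₁, -, hA₁⟩ := exists_subset_card_eq (s := (univ : Finset (Fin n))) (n := n / 2)
    (by rw [card_univ, Fintype.card_fin]; omega)
  obtain ⟨A', hA', B', hB', hcA, hcB, hsep⟩ := iter t T A₁ A₁ᶜ
  have hB₁ : A₁ᶜ.card = n - n / 2 := by
    rw [card_compl, Fintype.card_fin, hA₁]
  have hAc : 2 ≤ A'.card := by
    by_contra hcon
    have h5 : 2 ^ t * A'.card ≤ 2 ^ t * 1 := Nat.mul_le_mul_left _ (by omega)
    omega
  have hBc : n - k ≤ B'.card := by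
    by_contra hcon
    have h5 : 3 ^ t * (2 * B'.card + 1) ≤ 3 ^ t * (2 * (n - k)) := Nat.mul_le_mul_left _ (by omega)
    have h6 : 4 * 3 ^ t * (n - k) = 2 * (3 ^ t * (2 * (n - k))) := by ring
    omega
  obtain ⟨A, hAA, hA⟩ := exists_subset_card_eq hAc
  obtain ⟨B, hBB, hB⟩ := exists_subset_card_eq hBc
  have hAB : Disjoint A B := by
    rw [disjoint_left]
    intro x hx hx'
    exact (mem_compl.1 (hB' (hBB hx'))) (hA' (hAA hx))
  have hsep' : ∀ i, Sep (T i) A B := fun i => (hsep i).mono hAA hBB
  set S : Set (Setoid (Fin n)) :=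
    {r : Setoid (Fin n) | (∀ i, r ∈ (T i).partitions) ∧ Nat.card (Quotient r) = k} with hS
  have hfin : Finite (Setoid (Fin n)) :=
    Finite.of_injective (fun r : Setoid (Fin n) => fun i j => r i j) (by
      intro r s hrs
      ext i j
      exact iff_of_eq (congrFun (congrFun hrs i) j))
  let F : Finset (Fin n) → Setoid (Fin n) := fun C => Setoid.ker (rep C ∅)
  set I : Finset (Setoid (Fin n)) := (powersetCard (n - k + 1) (univ : Finset (Fin n))).image F
    with hI
  have hFrel : ∀ C i j, F C i j ↔ i = j ∨ (i ∈ C ∧ j ∈ C) := by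
    intro C i j
    show rep C ∅ i = rep C ∅ j ↔ _
    rw [rep_eq_iff C ∅ (disjoint_empty_right C)]
    simp
  have hIc : I.card = n.choose (k - 1) := by
    rw [hI, card_image_of_injOn, card_powersetCard, card_univ, Fintype.card_fin]
    · rw [← Nat.choose_symm (by omega : k - 1 ≤ n)]
      congr 1
      omega
    · intro C hC C' hC' hCC
      rw [mem_coe, mem_powersetCard] at hC hC'
      apply eq_of_subset_of_card_le
      · intro i hi
        have h5 : ∃ j ∈ C, j ≠ i := by
          have : 1 < C.card := by omega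
          exact exists_mem_ne this i
        obtain ⟨j, hj, hji⟩ := h5
        have h6 : F C i j := (hFrel C i j).2 (Or.inr ⟨hi, hj⟩)
        rw [hCC] at h6
        rcases (hFrel C' i j).1 h6 with h7 | h7
        · exact absurd h7.symm hji
        · exact h7.1
      · omega
  have hIS : ∀ r ∈ I, r ∈ S := by
    intro r hr
    rw [hI, mem_image] at hr
    obtain ⟨C, hC, rfl⟩ := hr
    rw [mem_powersetCard] at hC
    have hCne : C.Nonempty := by
      rw [← card_pos]
      omega
    constructor
    · intro i
      have h5 : ∃ s, s ∉ C := by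
        by_contra hcon
        push Not at hcon
        have : C = univ := eq_univ_of_forall hcon
        rw [this, card_univ, Fintype.card_fin] at hC
        omega
      obtain ⟨s, hs⟩ := h5
      exact partition_mem (T i) C ∅ (disjoint_empty_right C) (sep_single (T i) s C hs)
    · have h5 := card_quotient C ∅ (disjoint_empty_right C) hCne
      rw [if_neg (by simp), card_empty] at h5
      show Nat.card (Quotient (Setoid.ker (rep C ∅))) = k
      omega
  have hr₀S : Setoid.ker (rep A B) ∈ S := by
    refine ⟨fun i => partition_mem (T i) A B hAB (hsep' i), ?_⟩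
    have hBne : B.Nonempty := by
      rw [← card_pos]
      omega
    have hAne : A.Nonempty := by
      rw [← card_pos]
      omega
    have h5 := card_quotient A B hAB hAne
    rw [if_pos hBne] at h5
    omega
  have hr₀I : Setoid.ker (rep A B) ∉ I := by
    intro h
    rw [hI, mem_image] at h
    obtain ⟨C, -, hC⟩ := h
    have hrel : ∀ i j, (i = j ∨ (i ∈ C ∧ j ∈ C)) ↔ (i = j ∨ (i ∈ A ∧ j ∈ A) ∨ (i ∈ B ∧ j ∈ B)) := by
      intro i j
      rw [← hFrel, hC, ← rep_eq_iff A B hAB]
      exact Iff.rfl
    obtain ⟨a, ha, a', ha', haa⟩ := one_lt_card.1 (by omega : 1 < A.card)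
    obtain ⟨b, hb, b', hb', hbb⟩ := one_lt_card.1 (by omega : 1 < B.card)
    have h5 := (hrel a a').2 (Or.inr (Or.inl ⟨ha, ha'⟩))
    have h6 := (hrel b b').2 (Or.inr (Or.inr ⟨hb, hb'⟩))
    rcases h5 with h5 | h5
    · exact haa h5
    rcases h6 with h6 | h6
    · exact hbb h6
    rcases (hrel a b).1 (Or.inr ⟨h5.1, h6.1⟩) with h7 | h7 | h7
    · subst h7
      exact (disjoint_left.1 hAB) ha hb
    · exact (disjoint_left.1 hAB) h7.2 hb
    · exact (disjoint_left.1 hAB) ha h7.1
  have hfinal : (insert (Setoid.ker (rep A B)) I).card ≤ S.ncard := by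
    rw [← Set.ncard_coe_finset]
    apply Set.ncard_le_ncard _ (Set.toFinite _)
    intro r hr
    rw [mem_coe, mem_insert] at hr
    rcases hr with rfl | hr
    · exact hr₀S
    · exact hIS r hr
  rw [card_insert_of_notMem hr₀I, hIc] at hfinal
  exact hfinal

open Filter Topology in
/-- For any `t` trees there are nontrivial common partitions into exactly `k` classes whenever
`k ≤ n - 2` and `n - k ≤ n / (4 · 3^t)`. Consequently, for every `t ≥ 2` and every `f = o(n)`, for
all large `n` there is a `k < n - f n` for which every collection of `t` semilabeled binary trees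
of size `n` has more than `n.choose (k - 1)` common partitions with exactly `k` classes. -/
theorem result :
    (∀ t n k : ℕ, 1 ≤ k → k + 2 ≤ n → 4 * 3 ^ t * (n - k) ≤ n → ∀ T : Fin t → PhyloTree n,
      n.choose (k - 1) < common T k) ∧
    (∀ t : ℕ, 2 ≤ t → ∀ f : ℕ → ℕ, Tendsto (fun n => (f n : ℝ) / n) atTop (𝓝 0) →
      ∀ᶠ n in atTop, ∃ k : ℕ, 1 ≤ k ∧ k < n - f n ∧ ∀ T : Fin t → PhyloTree n,
        n.choose (k - 1) < common T k) := by
  refine ⟨fun t n k hk1 hk hn T => main t n k hk hn hk1 T, ?_⟩
  intro t _ f hf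
  have hε : (0 : ℝ) < 1 / (8 * 3 ^ t) := by positivity
  filter_upwards [hf.eventually (gt_mem_nhds hε), eventually_ge_atTop (16 * 3 ^ t)] with n h1 h2
  have h3 : 1 ≤ 3 ^ t := Nat.one_le_pow _ _ (by norm_num)
  have hn0 : (0 : ℝ) < n := by
    have : 0 < n := by omega
    exact_mod_cast this
  have h4 : 8 * 3 ^ t * f n ≤ n := by
    rw [div_lt_div_iff₀ hn0 (by positivity)] at h1
    have : (8 * 3 ^ t * f n : ℝ) ≤ n := by linarith
    exact_mod_cast this
  have h5 : 4 * 3 ^ t * (f n + 2) ≤ n := by
    have : 2 * (4 * 3 ^ t * (f n + 2)) = 8 * 3 ^ t * f n + 16 * 3 ^ t := by ring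
    omega
  have h6 : 4 * (f n + 2) ≤ n := by
    refine le_trans ?_ h5
    apply Nat.mul_le_mul_right
    omega
  refine ⟨n - (f n + 2), by omega, by omega, ?_⟩
  intro T
  apply main t n _ (by omega) _ (by omega) T
  have : n - (n - (f n + 2)) = f n + 2 := by omega
  rw [this]
  exact h5

end Pool.Agent.Results.MP_8ae77a_co.CommonPartitionsLargeK
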